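import Mathlib
import Pool.Agent.H73Z.Sol.Main

/-! For every rank `r ≥ 3` and every derived length `d ≥ 3`, the automorphism group of the free
solvable group `F_r / F_r^(d)` is not finitely generated. -/

set_option autoImplicit false

namespace Pool.Agent.Results.MP_4aafa9_al.ANotFG

theorem result (r d : ℕ) (hr : 3 ≤ r) (hd : 3 ≤ d) :
    ¬ Group.FG (MulAut (FreeGroup (Fin r) ⧸ derivedSeries (FreeGroup (Fin r)) d)) := by
  obtain ⟨k, rfl⟩ : ∃ k, d = k + 3 := ⟨d - 3, by omega⟩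
  obtain ⟨s, rfl⟩ : ∃ s, r = s + 3 := ⟨r - 3, by omega⟩
  exact Pool.Agent.H73Z.Sol.main (a := ⟨0, by omega⟩) (b := ⟨1, by omega⟩) (c := ⟨2, by omega⟩)
    (Fin.ne_of_val_ne (by norm_num)) (Fin.ne_of_val_ne (by norm_num))
    (Fin.ne_of_val_ne (by norm_num)) k

end Pool.Agent.Results.MP_4aafa9_al.ANotFG
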